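import Pool.Agent.Helper95.HS.GoalsA

/-! HS TRC: traces and determinants. -/

open Complex Matrix
open scoped ComplexConjugate ComplexOrder Matrix

namespace Pool.Agent.Helper27.HS

variable {n : ℕ}

theorem trc_herm (C : Matrix (Fin n) (Fin n) ℂ) (hC : C.IsHermitian) :
    ∃ (U : Matrix (Fin n) (Fin n) ℂ) (μ : Fin n → ℝ), U * Uᴴ = 1 ∧
      C = U * diagonal (fun i => (μ i : ℂ)) * Uᴴ ∧ (C.PosDef → ∀ i, 0 < μ i) := by
  refine ⟨hC.eigenvectorUnitary, hC.eigenvalues, ?_, ?_, fun h => h.eigenvalues_pos⟩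
  · exact Unitary.coe_mul_star_self hC.eigenvectorUnitary
  · have h := hC.spectral_theorem
    rw [Unitary.conjStarAlgAut_apply] at h
    exact h

theorem trc_simul (Q Y : Matrix (Fin n) (Fin n) ℂ) (hQ : Q.PosDef) (hY : Y.IsHermitian) :
    ∃ (P P' : Matrix (Fin n) (Fin n) ℂ) (μ : Fin n → ℝ), P * P' = 1 ∧ P' * P = 1 ∧ Q = P * Pᴴ ∧
      Y = P * diagonal (fun i => (μ i : ℂ)) * Pᴴ := by
  obtain ⟨U, l, hU, hQe, hl⟩ := trc_herm Q hQ.isHermitian
  have hl := hl hQ
  have hU' : Uᴴ * U = 1 := mul_eq_one_comm.1 hU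
  let d : Matrix (Fin n) (Fin n) ℂ := diagonal (fun i => ((Real.sqrt (l i) : ℝ) : ℂ))
  let d' : Matrix (Fin n) (Fin n) ℂ := diagonal (fun i => (((Real.sqrt (l i))⁻¹ : ℝ) : ℂ))
  have hs : ∀ i, Real.sqrt (l i) ≠ 0 := fun i => (Real.sqrt_pos.2 (hl i)).ne'
  have hdd : d * d' = 1 := by
    rw [diagonal_mul_diagonal, ← diagonal_one]
    congr 1
    funext i
    rw [← Complex.ofReal_mul, mul_inv_cancel₀ (hs i), Complex.ofReal_one]
  have hdd' : d' * d = 1 := mul_eq_one_comm.1 hdd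
  have hdH : dᴴ = d := by
    rw [diagonal_conjTranspose]
    congr 1
    funext i
    exact Complex.conj_ofReal _
  have hdH' : d'ᴴ = d' := by
    rw [diagonal_conjTranspose]
    congr 1
    funext i
    exact Complex.conj_ofReal _
  have hd2 : d * d = diagonal (fun i => (l i : ℂ)) := by
    rw [diagonal_mul_diagonal]
    congr 1
    funext i
    rw [← Complex.ofReal_mul, Real.mul_self_sqrt (hl i).le]
  let C : Matrix (Fin n) (Fin n) ℂ := d' * Uᴴ * Y * (U * d')
  have hC : C.IsHermitian := by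
    change (d' * Uᴴ * Y * (U * d'))ᴴ = d' * Uᴴ * Y * (U * d')
    simp only [conjTranspose_mul, conjTranspose_conjTranspose, hdH', hY.eq, Matrix.mul_assoc]
  obtain ⟨V, μ, hV, hCe, -⟩ := trc_herm C hC
  have hV' : Vᴴ * V = 1 := mul_eq_one_comm.1 hV
  refine ⟨U * d * V, Vᴴ * d' * Uᴴ, μ, ?_, ?_, ?_, ?_⟩
  · calc U * d * V * (Vᴴ * d' * Uᴴ) = U * (d * (V * Vᴴ) * d') * Uᴴ := by
          simp only [Matrix.mul_assoc]
      _ = 1 := by rw [hV, Matrix.mul_one, hdd, Matrix.mul_one, hU]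
  · calc Vᴴ * d' * Uᴴ * (U * d * V) = Vᴴ * (d' * (Uᴴ * U) * d) * V := by
          simp only [Matrix.mul_assoc]
      _ = 1 := by rw [hU', Matrix.mul_one, hdd', Matrix.mul_one, hV']
  · calc Q = U * diagonal (fun i => (l i : ℂ)) * Uᴴ := hQe
      _ = U * (d * (V * Vᴴ) * d) * Uᴴ := by rw [hV, Matrix.mul_one, hd2]
      _ = U * d * V * (U * d * V)ᴴ := by
          simp only [conjTranspose_mul, hdH, Matrix.mul_assoc]
  · calc Y = U * (d * d') * Uᴴ * Y * (U * (d' * d) * Uᴴ) := by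
          rw [hdd, hdd', Matrix.mul_one, hU, Matrix.one_mul, Matrix.mul_one]
      _ = U * d * (d' * Uᴴ * Y * (U * d')) * (d * Uᴴ) := by simp only [Matrix.mul_assoc]
      _ = U * d * (V * diagonal (fun i => (μ i : ℂ)) * Vᴴ) * (d * Uᴴ) := by rw [← hCe]
      _ = U * d * V * diagonal (fun i => (μ i : ℂ)) * (U * d * V)ᴴ := by
          simp only [conjTranspose_mul, hdH, Matrix.mul_assoc]

theorem trc_posSemidef (P P' : Matrix (Fin n) (Fin n) ℂ) (μ : Fin n → ℝ) (h1 : P' * P = 1)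
    (h : (P * diagonal (fun i => (μ i : ℂ)) * Pᴴ).PosSemidef) (i : Fin n) : 0 ≤ μ i := by
  have h2 := h.mul_mul_conjTranspose_same P'
  have h3 : P' * (P * diagonal (fun i => (μ i : ℂ)) * Pᴴ) * P'ᴴ =
      diagonal (fun i => (μ i : ℂ)) := by
    calc P' * (P * diagonal (fun i => (μ i : ℂ)) * Pᴴ) * P'ᴴ =
        (P' * P) * diagonal (fun i => (μ i : ℂ)) * (P' * P)ᴴ := by
          simp only [conjTranspose_mul, Matrix.mul_assoc]
      _ = _ := by rw [h1, conjTranspose_one, Matrix.one_mul, Matrix.mul_one]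
  rw [h3] at h2
  have h4 := h2.diag_nonneg (i := i)
  rw [diagonal_apply_eq] at h4
  exact Complex.zero_le_real.1 h4

theorem trc_bern {ι : Type} (s : Finset ι) (x : ι → ℝ) (hx : ∀ i ∈ s, 0 ≤ x i) :
    1 + ∑ i ∈ s, x i ≤ ∏ i ∈ s, (1 + x i) := by
  classical
  induction s using Finset.induction_on with
  | empty => simp
  | insert a s ha ih =>
    rw [Finset.sum_insert ha, Finset.prod_insert ha]
    have h1 := ih fun i hi => hx i (Finset.mem_insert_of_mem hi)
    have h2 := hx a (Finset.mem_insert_self _ _)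
    have h3 : 0 ≤ ∑ i ∈ s, x i := Finset.sum_nonneg fun i hi => hx i (Finset.mem_insert_of_mem hi)
    nlinarith [mul_nonneg h2 h3]

theorem trc : Pool.Agent.Helper95.HS.S_TRC := by
  intro n Q Y hQ
  -- common computation
  have key : ∀ Y : Matrix (Fin n) (Fin n) ℂ, Y.IsHermitian → ∃ (μ : Fin n → ℝ) (c : ℝ), 0 < c ∧
      Q.det = (c : ℂ) ∧ Matrix.trace (Q⁻¹ * Y) = ((∑ i, μ i : ℝ) : ℂ) ∧
      (∀ t : ℝ, (Q + (t : ℂ) • Y).det = ((c * ∏ i, (1 + t * μ i) : ℝ) : ℂ)) ∧
      Y.det = ((c * ∏ i, μ i : ℝ) : ℂ) ∧ (Y.PosSemidef → ∀ i, 0 ≤ μ i) ∧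
      (∀ a : ℝ, (Y - (a : ℂ) • Q).PosSemidef → ∀ i, a ≤ μ i) := by
    intro Y hY
    obtain ⟨P, P', μ, hPP, hPP', hQe, hYe⟩ := trc_simul Q Y hQ hY
    have hdet : P.det * Pᴴ.det = ((‖P.det‖ ^ 2 : ℝ) : ℂ) := by
      rw [det_conjTranspose]
      have := Complex.mul_conj' P.det
      rw [show star P.det = conj P.det from rfl, this]
      push_cast
      rfl
    have hP0 : P.det ≠ 0 := by
      intro h
      have := congrArg Matrix.det hPP
      rw [det_mul, h, zero_mul, det_one] at this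
      exact zero_ne_one this
    have hpos : 0 < ‖P.det‖ ^ 2 := by positivity
    refine ⟨μ, ‖P.det‖ ^ 2, hpos, ?_, ?_, ?_, ?_, ?_, ?_⟩
    · rw [hQe, det_mul, hdet]
    · have hinv : Q⁻¹ = P'ᴴ * P' := by
        apply Matrix.inv_eq_left_inv
        calc P'ᴴ * P' * Q = P'ᴴ * (P' * P) * Pᴴ := by rw [hQe]; simp only [Matrix.mul_assoc]
          _ = (P * P')ᴴ := by rw [hPP', Matrix.mul_one, conjTranspose_mul]
          _ = 1 := by rw [hPP, conjTranspose_one]
      rw [hinv, hYe]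
      have e1 : P'ᴴ * P' * (P * diagonal (fun i => (μ i : ℂ)) * Pᴴ) =
          P'ᴴ * ((P' * P) * diagonal (fun i => (μ i : ℂ)) * Pᴴ) := by
        simp only [Matrix.mul_assoc]
      rw [e1, hPP', Matrix.one_mul, trace_mul_comm, Matrix.mul_assoc, ← conjTranspose_mul, hPP',
        conjTranspose_one, Matrix.mul_one, trace_diagonal]
      push_cast
      rfl
    · intro t
      have e1 : Q + (t : ℂ) • Y = P * diagonal (fun i => ((1 + t * μ i : ℝ) : ℂ)) * Pᴴ := by
        have e2 : diagonal (fun i => ((1 + t * μ i : ℝ) : ℂ)) =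
            1 + (t : ℂ) • diagonal (fun i => (μ i : ℂ)) := by
          rw [← diagonal_one, ← diagonal_smul, diagonal_add]
          congr 1
          funext i
          rw [Pi.smul_apply, smul_eq_mul]
          push_cast
          rfl
        rw [e2, hQe, hYe, Matrix.mul_add, Matrix.add_mul, Matrix.mul_one, Matrix.mul_smul,
          Matrix.smul_mul]
      rw [e1, det_mul, det_mul, det_diagonal, mul_right_comm, hdet]
      push_cast
      rfl
    · rw [hYe, det_mul, det_mul, det_diagonal, mul_right_comm, hdet]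
      push_cast
      rfl
    · intro h
      rw [hYe] at h
      exact trc_posSemidef P P' μ hPP' h
    · intro a h i
      have e1 : Y - (a : ℂ) • Q = P * diagonal (fun i => ((μ i - a : ℝ) : ℂ)) * Pᴴ := by
        have e2 : diagonal (fun i => ((μ i - a : ℝ) : ℂ)) =
            diagonal (fun i => (μ i : ℂ)) - (a : ℂ) • 1 := by
          rw [← diagonal_one, ← diagonal_smul, diagonal_sub]
          congr 1
          funext i
          rw [Pi.smul_apply, smul_eq_mul, mul_one]
          push_cast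
          rfl
        rw [e2, hQe, hYe, Matrix.mul_sub, Matrix.sub_mul, Matrix.mul_smul, Matrix.mul_one,
          Matrix.smul_mul]
      rw [e1] at h
      have := trc_posSemidef P P' (fun i => μ i - a) hPP' h i
      linarith
  refine ⟨?_, ?_, ?_, ?_, ?_⟩
  · intro hY
    obtain ⟨μ, c, hc, h1, h2, h3, h4, h5, h6⟩ := key Y hY
    rw [h1, h2, h4]
    exact ⟨Complex.ofReal_im _, Complex.ofReal_im _, hc⟩
  · intro hY
    obtain ⟨μ, c, hc, h1, h2, h3, h4, h5, h6⟩ := key Y hY.isHermitian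
    have h7 := h5 hY
    rw [h2, h4, Complex.ofReal_re, Complex.ofReal_re]
    exact ⟨Finset.sum_nonneg fun i _ => h7 i,
      mul_nonneg hc.le (Finset.prod_nonneg fun i _ => h7 i)⟩
  · intro hY
    obtain ⟨μ, c, hc, h1, h2, h3, h4, h5, h6⟩ := key Y hY.isHermitian
    have h7 := h5 hY.posSemidef
    rw [h1, h2, h4, Complex.ofReal_re, Complex.ofReal_re, Complex.ofReal_re,
      mul_div_cancel_left₀ _ hc.ne']
    rcases Nat.eq_zero_or_pos n with hn | hn
    · subst hn
      simp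
    · have hn' : (0 : ℝ) < n := Nat.cast_pos.2 hn
      have h8 := Real.geom_mean_le_arith_mean_weighted Finset.univ (fun _ : Fin n => (1 : ℝ) / n) μ
        (fun _ _ => by positivity) (by
          rw [Finset.sum_const, Finset.card_univ, Fintype.card_fin, nsmul_eq_mul]
          field_simp) (fun i _ => h7 i)
      rw [Real.finsetProd_rpow _ _ (fun i _ => h7 i), ← Finset.mul_sum] at h8
      calc (n : ℝ) * (∏ i, μ i) ^ ((1 : ℝ) / n) ≤ n * (1 / n * ∑ i, μ i) :=
            mul_le_mul_of_nonneg_left h8 hn'.le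
        _ = ∑ i, μ i := by field_simp
  · intro hYQ
    have hY : Y.IsHermitian := by
      have := hYQ.isHermitian.add hQ.isHermitian
      rwa [sub_add_cancel] at this
    obtain ⟨μ, c, hc, h1, h2, h3, h4, h5, h6⟩ := key Y hY
    have h7 := h6 1 (by rwa [Complex.ofReal_one, one_smul])
    rw [h1, h4, Complex.ofReal_re, Complex.ofReal_re]
    have h8 : (1 : ℝ) ≤ ∏ i, μ i := by
      calc (1 : ℝ) = ∏ _i : Fin n, (1 : ℝ) := by rw [Finset.prod_const_one]
        _ ≤ ∏ i, μ i := Finset.prod_le_prod (fun _ _ => zero_le_one) fun i _ => h7 i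
    nlinarith
  · intro t ht hY
    obtain ⟨μ, c, hc, h1, h2, h3, h4, h5, h6⟩ := key Y hY.isHermitian
    have h7 := h5 hY
    rw [h1, h2, h3, Complex.ofReal_re, Complex.ofReal_re, Complex.ofReal_re]
    have hs : 0 ≤ t * ∑ i, μ i := mul_nonneg ht (Finset.sum_nonneg fun i _ => h7 i)
    constructor
    · refine mul_le_mul_of_nonneg_left ?_ hc.le
      rw [Finset.mul_sum]
      exact trc_bern Finset.univ (fun i => t * μ i) fun i _ => mul_nonneg ht (h7 i)
    · intro h8
      refine mul_le_mul_of_nonneg_left ?_ hc.le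
      have e1 : ∏ i, (1 + t * μ i) ≤ Real.exp (t * ∑ i, μ i) := by
        rw [Finset.mul_sum, Real.exp_sum]
        refine Finset.prod_le_prod (fun i _ => ?_) fun i _ => ?_
        · have := mul_nonneg ht (h7 i)
          linarith
        · rw [add_comm]
          exact Real.add_one_le_exp _
      refine e1.trans ?_
      have h9 := Real.abs_exp_sub_one_sub_id_le (x := t * ∑ i, μ i) (by rwa [abs_of_nonneg hs])
      have h10 := (abs_le.1 h9).2
      linarith

end Pool.Agent.Helper27.HS
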