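import Pool.Agent.Helper36.HS.GoalsL

/-!
# HS, packet SMC: smooth representatives of finite order
-/

open Complex Metric Set Filter Topology MeasureTheory
open scoped ContDiff ComplexConjugate ComplexOrder Manifold

namespace Pool.Agent.Helper27.HS

open Pool.Agent.Helper95.Lin Pool.Agent.Helper16.Abund Pool.Agent.Helper92.Orb
  Pool.Agent.Helper10.SP Pool.Agent.Helper36.HS

theorem HC_pred {n : ℕ} : ∀ (m : ℕ) (u : Cn n → ℂ), HC (m + 1) u → HC m u
  | 0, _, h => h.1
  | m + 1, _, h => ⟨h.1, fun a => by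
      obtain ⟨g, hg, hw⟩ := h.2 a
      exact ⟨g, HC_pred m g hg, hw⟩⟩

theorem HC_mono {n : ℕ} (k m : ℕ) (u : Cn n → ℂ) (h : HC (k + m) u) : HC k u := by
  induction m with
  | zero => exact h
  | succ m ih => exact ih (HC_pred _ _ h)

theorem WD_congr {n : ℕ} {a : Fin n × Bool} {f g f' g' : Cn n → ℂ} (h : WD univ a f g)
    (hf : f =ᵐ[volume] f') (hg : g =ᵐ[volume] g') : WD univ a f' g' := by
  intro ζ hζ
  have h1 := h ζ hζ
  have e1 : ∫ x in (univ : Set (Cn n)), f' x * dz a ζ x = ∫ x in univ, f x * dz a ζ x := by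
    refine integral_congr_ae ?_
    rw [Measure.restrict_univ]
    filter_upwards [hf] with x hx
    rw [hx]
  have e2 : ∫ x in (univ : Set (Cn n)), g' x * ζ x = ∫ x in univ, g x * ζ x := by
    refine integral_congr_ae ?_
    rw [Measure.restrict_univ]
    filter_upwards [hg] with x hx
    rw [hx]
  rw [e1, e2, h1]

theorem smc (hCRP : S_CRP) (hCDR : S_CDR) : S_SMC := by
  intro n m
  induction m with
  | zero =>
    intro u hu
    obtain ⟨g, hg, cg, e⟩ := hCRP u hu
    exact ⟨g, by rw [Nat.cast_zero]; exact contDiff_zero.mpr hg, cg, e⟩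
  | succ m ih =>
    intro u hu
    have hu' : HC ((2 * n + m) + 1) u := hu
    obtain ⟨g, hg, cg, e⟩ := hCRP u (HC_mono _ (m + 1) u hu)
    choose ua hua hwa using hu'.2
    choose ga hga cga ega using fun a => ih (ua a) (hua a)
    have hW : ∀ a, WD univ a g (ga a) := fun a => WD_congr (hwa a) e (ega a)
    obtain ⟨hd, hf⟩ := hCDR g ga hg cg (fun a => (hga a).continuous) cga hW
    refine ⟨g, ?_, cg, e⟩
    have hm : ((m + 1 : ℕ) : WithTop ℕ∞) = (m : WithTop ℕ∞) + 1 := by push_cast; rfl
    rw [hm, contDiff_succ_iff_fderiv]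
    refine ⟨hd, fun h => ?_, ?_⟩
    · exact absurd h (by simp)
    · rw [contDiff_clm_apply_iff]
      intro v
      simp only [hf]
      refine contDiff_const.mul (ContDiff.sum fun l _ => ?_)
      exact (contDiff_const.mul (hga _)).add (contDiff_const.mul (hga _))

end Pool.Agent.Helper27.HS
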